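import Pool.Agent.Helper35.PI2.St
import Pool.Agent.Helper2.PI.M_G4

/-!
Project PI2 (MP_b2fa09_gt), module GH: jets of `H` and `A_kl` of the graph at its centre.
-/

namespace Helper98.PI2

open Helper35.PI Helper35.PI2
open Helper2.PI
open scoped ContDiff Manifold Topology ENNReal BigOperators
open MeasureTheory Set Filter

section Aux

variable {E V : Type*} [NormedAddCommGroup E] [NormedSpace ℝ E]
  [NormedAddCommGroup V] [NormedSpace ℝ V]

lemma DD_inf {φ : E → V} {z : E} (h : ContDiffAt ℝ ∞ φ z) (v : E) :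
    ContDiffAt ℝ ∞ (DD v φ) z :=
  DD_smooth h (by simp) v

lemma le_two : (2 : WithTop ℕ∞) ≤ ((⊤ : ℕ∞) : WithTop ℕ∞) := by
  have h : ((2 : ℕ∞) : WithTop ℕ∞) ≤ ((⊤ : ℕ∞) : WithTop ℕ∞) := WithTop.coe_le_coe.2 le_top
  exact h

lemma two_of {φ : E → V} {z : E} (h : ContDiffAt ℝ ∞ φ z) : ContDiffAt ℝ 2 φ z :=
  h.of_le le_two

lemma diff_of {φ : E → V} {z : E} (h : ContDiffAt ℝ ∞ φ z) : DifferentiableAt ℝ φ z :=
  (two_of h).differentiableAt (by norm_num)

lemma diff_ev {φ : E → V} {z : E} (h : ContDiffAt ℝ ∞ φ z) :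
    ∀ᶠ z' in 𝓝 z, DifferentiableAt ℝ φ z' := by
  filter_upwards [(two_of h).eventually (by norm_num)] with z' hz'
  exact hz'.differentiableAt (by norm_num)

/-- `nrm` of a double sum -/
lemma nrm_sum {n N : ℕ} (hNR : StNR) (f : EE n → EE N) (x : EE n) (hf : LI f x)
    (G : Fin n → Fin n → ℝ) (W : Fin n → Fin n → EE N) :
    ∑ i, ∑ j, G i j • nrm f x (W i j) = nrm f x (∑ i, ∑ j, G i j • W i j) := by
  obtain ⟨-, -, -, -, hadd, hsmul, -, -⟩ := hNR n N f x hf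
  let ℓ : EE N →ₗ[ℝ] EE N :=
    { toFun := nrm f x
      map_add' := hadd
      map_smul' := hsmul }
  have h1 : ∀ v, ℓ v = nrm f x v := fun v => rfl
  rw [← h1, map_sum]
  refine Finset.sum_congr rfl fun i _ => ?_
  rw [map_sum]
  refine Finset.sum_congr rfl fun j _ => ?_
  rw [map_smul]
  rfl

/-- a derivative of a field orthogonal to a fixed vector -/
lemma DD_perp {N : ℕ} {φ : E → EE N} {z : E} (w : EE N) (h : DifferentiableAt ℝ φ z)
    (hp : ∀ᶠ z' in 𝓝 z, (inner ℝ (φ z') w : ℝ) = 0) (v : E) :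
    (inner ℝ (DD v φ z) w : ℝ) = 0 := by
  have h1 : (fun z' => (inner ℝ (φ z') w : ℝ)) =ᶠ[𝓝 z] fun _ => 0 := hp
  have h2 : fderiv ℝ (fun z' => (inner ℝ (φ z') w : ℝ)) z v = 0 := by
    rw [h1.fderiv_eq]; simp
  rw [fderiv_inner_apply ℝ h (differentiableAt_const _)] at h2
  simpa [DD] using h2

end Aux

theorem hGH (hNJ : StNJ) (hNR : StNR) (_hSM : StSM) (hG0 : StG0) (hG1 : StG1) (hG2 : StG2)
    (_hJA : StJA) (_hJB : StJB) : StGH := by
  intro n N x₀ L u t₀ hu A T hA hT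
  set z₀ : EE n × ℝ := (0, t₀) with hz₀
  have hs : ContDiffAt ℝ ∞ u z₀ := hu.smooth
  let e : Fin n → EE n × ℝ := fun k => (ee k, 0)
  let τ : EE n × ℝ := (0, 1)
  have g2 := hG2 n N x₀ L u t₀ hu
  have g1 := hG1 n N x₀ L u t₀ hu
  obtain ⟨symA, symT, perpA, perpT⟩ := g1
  rw [← hA] at symA perpA
  rw [← hT] at symT perpT
  -- smoothness
  have s1 : ∀ v, ContDiffAt ℝ ∞ (DD v u) z₀ := fun v => DD_inf hs v
  have s2 : ∀ v w, ContDiffAt ℝ ∞ (DD v (DD w u)) z₀ := fun v w => DD_inf (s1 w) v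
  -- commuting three derivatives
  have c3 : ∀ v a b : EE n × ℝ, DD v (DD a (DD b u)) z₀ = DD a (DD b (DD v u)) z₀ := by
    intro v a b
    rw [DD_comm (two_of (s1 b)) v a]
    exact DD_congr (DD_comm_ev (two_of hs) v b) a
  -- the equation
  have hpde : DD τ u =ᶠ[𝓝 z₀] fun z => ∑ a, ∑ b, GIf x₀ L u a b z • DD (e a) (DD (e b) u) z := by
    filter_upwards [hu.pde] with z hz
    exact hz
  have hδ : ∀ (W : Fin n → Fin n → EE N), ∑ a, ∑ b, (if a = b then (1 : ℝ) else 0) • W a b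
      = ∑ a, W a a := by
    intro W
    refine Finset.sum_congr rfl fun a _ => ?_
    rw [Finset.sum_eq_single a]
    · simp
    · intro b _ hb
      rw [if_neg (Ne.symm hb), zero_smul]
    · intro h
      exact absurd (Finset.mem_univ a) h
  have v0 : DD τ u z₀ = Hv A := by
    rw [hpde.self_of_nhds]
    show ∑ a, ∑ b, GIf x₀ L u a b z₀ • DD (e a) (DD (e b) u) z₀ = Hv A
    have h1 : ∀ a b : Fin n, GIf x₀ L u a b z₀ • DD (e a) (DD (e b) u) z₀
        = (if a = b then (1 : ℝ) else 0) • A a b := by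
      intro a b
      rw [show GIf x₀ L u a b z₀ = (if a = b then 1 else 0) from
        (hG0 n N x₀ L u t₀ hu a b).2.1, hA]
      rfl
    rw [Finset.sum_congr rfl fun a _ => Finset.sum_congr rfl fun b _ => h1 a b]
    rw [hδ A]
    rfl
  have v1 : ∀ m, DD (e m) (DD τ u) z₀ = et T m := by
    intro m
    rw [DD_congr hpde (e m)]
    have d1 : ∀ a b : Fin n, DifferentiableAt ℝ (GIf x₀ L u a b) z₀ := fun a b =>
      diff_of (hG0 n N x₀ L u t₀ hu a b).1
    have d2 : ∀ a b : Fin n, DifferentiableAt ℝ (DD (e a) (DD (e b) u)) z₀ := fun a b =>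
      diff_of (s2 _ _)
    rw [DD_sum Finset.univ (fun a z => ∑ b, GIf x₀ L u a b z • DD (e a) (DD (e b) u) z)
      (fun a _ => DifferentiableAt.fun_sum fun b _ => (d1 a b).smul (d2 a b)) (e m)]
    have h1 : ∀ a : Fin n, DD (e m) (fun z => ∑ b, GIf x₀ L u a b z • DD (e a) (DD (e b) u) z) z₀
        = ∑ b, (if a = b then (1 : ℝ) else 0) • T m a b := by
      intro a
      rw [DD_sum Finset.univ (fun b z => GIf x₀ L u a b z • DD (e a) (DD (e b) u) z)
        (fun b _ => (d1 a b).smul (d2 a b)) (e m)]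
      refine Finset.sum_congr rfl fun b _ => ?_
      obtain ⟨-, q2, q3, -, -⟩ := hG0 n N x₀ L u t₀ hu a b
      rw [DD_smul (GIf x₀ L u a b) (DD (e a) (DD (e b) u)) (d1 a b) (d2 a b) (e m)]
      rw [show GIf x₀ L u a b z₀ = (if a = b then 1 else 0) from q2,
        show DD (e m) (GIf x₀ L u a b) z₀ = 0 from q3 m, zero_smul, add_zero, hT]
      rfl
    rw [Finset.sum_congr rfl fun a _ => h1 a, hδ (T m)]
    unfold et
    refine Finset.sum_congr rfl fun i _ => ?_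
    rw [symT.1 m i i, symT.2 i m i]
  -- orthogonality of the fields
  have p0 : ∀ᶠ z in 𝓝 z₀, ∀ w : EE n, (inner ℝ (DD τ u z) (L w) : ℝ) = 0 := by
    filter_upwards [diff_ev hs, hu.perp.eventually_nhds] with z h1 h2 w
    exact DD_perp (L w) h1 (h2.mono fun z' hz' => hz' w) τ
  have p2 : ∀ k l, ∀ᶠ z in 𝓝 z₀, ∀ w : EE n, (inner ℝ (jgg u z k l) (L w) : ℝ) = 0 := by
    intro k l
    filter_upwards [g2] with z hz w
    exact (hz.2.2.2.1 k l w).2
  -- the second fundamental form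
  have hAf : ∀ k l, Af x₀ L u k l =ᶠ[𝓝 z₀]
      fun z => nrm (grf x₀ L u z.2) z.1 ((fun z => jgg u z k l) z) := by
    intro k l
    filter_upwards [g2] with z hz
    show nrm (grf x₀ L u z.2) z.1 (dv2 (grf x₀ L u z.2) z.1 k l) = _
    rw [hz.2.1 k l]
  have hHf : Hf x₀ L u =ᶠ[𝓝 z₀] fun z => nrm (grf x₀ L u z.2) z.1 (DD τ u z) := by
    filter_upwards [g2, hpde] with z hz hp
    show ∑ i, ∑ j, (gram (grf x₀ L u z.2) z.1)⁻¹ i j •
      nrm (grf x₀ L u z.2) z.1 (dv2 (grf x₀ L u z.2) z.1 i j) = _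
    rw [nrm_sum hNR _ _ hz.2.2.2.2 (fun i j => (gram (grf x₀ L u z.2) z.1)⁻¹ i j)
      (fun i j => dv2 (grf x₀ L u z.2) z.1 i j), hp]
    congr 1
    refine Finset.sum_congr rfl fun i _ => Finset.sum_congr rfl fun j _ => ?_
    rw [hz.2.1 i j]
    rfl
  obtain ⟨n1, n2, n3, n4⟩ := hNJ n N x₀ L u t₀ hu (DD τ u) (s1 τ) p0
    (fun z => nrm (grf x₀ L u z.2) z.1 (DD τ u z)) rfl
  refine ⟨n1.congr_of_eventuallyEq hHf, ?_, ?_, ?_, ?_⟩
  · rw [hHf.self_of_nhds]
    exact n2.trans v0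
  · intro m
    have h1 : jg (Hf x₀ L u) z₀ m
        = jg (fun z => nrm (grf x₀ L u z.2) z.1 (DD τ u z)) z₀ m := DD_congr hHf (e m)
    rw [h1, n3 m, show jg (DD τ u) (0, t₀) m = et T m from v1 m,
      show DD τ u (0, t₀) = Hv A from v0, hA]
  · intro w hw i j
    have h1 : jgg (Hf x₀ L u) z₀ i j
        = jgg (fun z => nrm (grf x₀ L u z.2) z.1 (DD τ u z)) z₀ i j :=
      DD_congr (DD_ev hHf (e j)) (e i)
    rw [h1, (n4 w hw).2 i j]
    rw [show jgg (DD τ u) (0, t₀) i j = ut u (0, t₀) i j from (c3 τ (e i) (e j)).symm,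
      show DD τ u (0, t₀) = Hv A from v0, hA]
  · intro k l
    obtain ⟨m1, m2, m3, m4⟩ := hNJ n N x₀ L u t₀ hu (fun z => jgg u z k l) (s2 (e k) (e l))
      (p2 k l) (fun z => nrm (grf x₀ L u z.2) z.1 ((fun z => jgg u z k l) z)) rfl
    refine ⟨m1.congr_of_eventuallyEq (hAf k l), ?_, ?_, ?_⟩
    · rw [(hAf k l).self_of_nhds, hA]
      exact m2
    · intro m
      have h1 : jg (Af x₀ L u k l) z₀ m
          = jg (fun z => nrm (grf x₀ L u z.2) z.1 ((fun z => jgg u z k l) z)) z₀ m :=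
        DD_congr (hAf k l) (e m)
      rw [h1, m3 m, hA, hT]
      rfl
    · intro w hw
      have h1 : jt (Af x₀ L u k l) z₀
          = jt (fun z => nrm (grf x₀ L u z.2) z.1 ((fun z => jgg u z k l) z)) z₀ :=
        DD_congr (hAf k l) τ
      rw [h1, (m4 w hw).1]
      rfl

end Helper98.PI2
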